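import Pool.Agent.Fiber.Main

set_option autoImplicit false
open Set Filter Topology

namespace Pool.Agent.Fiber

theorem onePt {E : Type} [NormedAddCommGroup E] [ProperSpace E]
    (D : Set (OnePoint (E × ℝ))) (hD : IsClosed D) (hinf : OnePoint.infty ∈ D) :
    ∃ H : ℕ → (OnePoint (E × ℝ) ≃ₜ OnePoint (E × ℝ)),
      (∀ p, ∃ q ∈ D, Tendsto (fun k => H k p) atTop (𝓝 q)) ∧
      (∀ q ∈ D, ∃ p, Tendsto (fun k => H k p) atTop (𝓝 q)) := by
  let C : Set (E × ℝ) := {x | (x : OnePoint (E × ℝ)) ∈ D}
  have hCc : IsClosed C := hD.preimage OnePoint.continuous_coe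
  rcases C.eq_empty_or_nonempty with hC | hC
  · -- translations
    have hconv : ∀ p : OnePoint (E × ℝ),
        Tendsto (fun k : ℕ => (Homeomorph.addRight ((0:E), -(k:ℝ))).onePointCongr p) atTop
          (𝓝 OnePoint.infty) := by
      intro p
      induction p using OnePoint.rec with
      | infty => exact tendsto_const_nhds
      | coe p =>
        refine OnePoint.tendsto_coe_infty.comp ?_
        rw [Filter.coclosedCompact_eq_cocompact]
        have h3 : comap (Prod.snd : E × ℝ → ℝ) atBot ≤ cocompact (E × ℝ) := by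
          intro s hs
          rw [Filter.mem_cocompact] at hs
          obtain ⟨K, hK, hKs⟩ := hs
          obtain ⟨m, hm⟩ := (hK.image continuous_snd).bddBelow
          refine ⟨Set.Iio m, Iio_mem_atBot m, ?_⟩
          intro p hp
          apply hKs
          intro hpK
          exact absurd (hm ⟨p, hpK, rfl⟩) (not_le.mpr hp)
        refine Tendsto.mono_right ?_ h3
        rw [tendsto_comap_iff]
        have : (Prod.snd ∘ fun k : ℕ => (Homeomorph.addRight ((0:E), -(k:ℝ))) p) =
            fun k : ℕ => p.2 + -(k:ℝ) := by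
          funext k; simp
        rw [this]
        exact tendsto_atBot_add_const_left _ _ (tendsto_neg_atTop_atBot.comp tendsto_natCast_atTop_atTop)
    refine ⟨fun k => (Homeomorph.addRight ((0:E), -(k:ℝ))).onePointCongr, ?_, ?_⟩
    · intro p; exact ⟨_, hinf, hconv p⟩
    · intro q hq
      have hq' : q = OnePoint.infty := by
        induction q using OnePoint.rec with
        | infty => rfl
        | coe q =>
          have : q ∈ C := hq
          rw [hC] at this
          exact absurd this (notMem_empty _)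
      exact ⟨OnePoint.infty, by rw [hq']; exact hconv _⟩
  · have hK : ∀ k : ℕ, (1:ℝ) ≤ (k:ℝ) + 1 := fun k => by
      have : (0:ℝ) ≤ k := Nat.cast_nonneg k
      linarith
    refine ⟨fun k => (hmH hC (hK k)).onePointCongr, ?_, ?_⟩
    · intro p
      induction p using OnePoint.rec with
      | infty => exact ⟨OnePoint.infty, hinf, tendsto_const_nhds⟩
      | coe p =>
        obtain ⟨x, t⟩ := p
        by_cases h : ∃ c, (x, c) ∈ C ∧ c ≤ t
        · let S : Set ℝ := {c | (x, c) ∈ C} ∩ Set.Iic t
          have hSc : IsClosed S := (hCc.preimage (by fun_prop)).inter isClosed_Iic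
          have hSn : S.Nonempty := h
          have hSb : BddAbove S := ⟨t, fun c hc => hc.2⟩
          have hmem := hSc.csSup_mem hSn hSb
          refine ⟨((x, sSup S) : E × ℝ), hmem.1, ?_⟩
          have h1 := conv_max hCc x t (sSup S) hmem.1 hmem.2
            (fun c' h1 h2 => le_csSup hSb ⟨h1, h2⟩)
          exact (OnePoint.continuous_coe.tendsto _).comp h1
        · exact ⟨OnePoint.infty, hinf, conv_inf hCc hC x t (fun c h1 h2 => h ⟨c, h1, h2⟩)⟩
    · intro q hq
      induction q using OnePoint.rec with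
      | infty => exact ⟨OnePoint.infty, tendsto_const_nhds⟩
      | coe q =>
        obtain ⟨x, c⟩ := q
        refine ⟨((x, c) : E × ℝ), ?_⟩
        have h1 := conv_max hCc x c c hq le_rfl (fun c' _ h2 => h2)
        exact (OnePoint.continuous_coe.tendsto _).comp h1

theorem main :
    ∀ n : ℕ, 2 ≤ n →
      ∀ C : Set ↥(Metric.sphere (0 : EuclideanSpace ℝ (Fin n)) (1 : ℝ)),
        IsClosed C → C.Nonempty →
        ∃ H : ℕ → (↥(Metric.sphere (0 : EuclideanSpace ℝ (Fin n)) (1 : ℝ)) ≃ₜ
                    ↥(Metric.sphere (0 : EuclideanSpace ℝ (Fin n)) (1 : ℝ))),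
          (∀ p : ↥(Metric.sphere (0 : EuclideanSpace ℝ (Fin n)) (1 : ℝ)),
              ∃ q ∈ C, Tendsto (fun k : ℕ => H k p) atTop (𝓝 q)) ∧
          (∀ q ∈ C, ∃ p : ↥(Metric.sphere (0 : EuclideanSpace ℝ (Fin n)) (1 : ℝ)),
              Tendsto (fun k : ℕ => H k p) atTop (𝓝 q)) := by
  intro n hn C hCc hCn
  obtain ⟨v, hv⟩ := hCn
  have hv1 : ‖(v : EuclideanSpace ℝ (Fin n))‖ = 1 := by simpa using v.2
  have hv0 : (v : EuclideanSpace ℝ (Fin n)) ≠ 0 := by
    intro h; rw [h, norm_zero] at hv1; exact zero_ne_one hv1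
  let V : Submodule ℝ (EuclideanSpace ℝ (Fin n)) := (Submodule.span ℝ {(v : EuclideanSpace ℝ (Fin n))})ᗮ
  have hV : Module.finrank ℝ V + 1 = n := by
    have h1 := Submodule.finrank_add_finrank_orthogonal
      (Submodule.span ℝ {(v : EuclideanSpace ℝ (Fin n))})
    rw [finrank_span_singleton hv0] at h1
    have h2 : Module.finrank ℝ (EuclideanSpace ℝ (Fin n)) = n := by simp
    rw [h2] at h1
    change 1 + Module.finrank ℝ V = n at h1
    omega
  let E := EuclideanSpace ℝ (Fin (n - 2))
  have hdim : Module.finrank ℝ (E × ℝ) = Module.finrank ℝ V := by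
    rw [Module.finrank_prod]
    simp only [E, finrank_euclideanSpace, Fintype.card_fin, Module.finrank_self]
    omega
  let e : (E × ℝ) ≃L[ℝ] V := ContinuousLinearEquiv.ofFinrankEq hdim
  let Θ : OnePoint (E × ℝ) ≃ₜ Metric.sphere (0 : EuclideanSpace ℝ (Fin n)) 1 :=
    e.toHomeomorph.onePointCongr.trans (onePointHyperplaneHomeoUnitSphere hv1)
  have hΘ : Θ OnePoint.infty = v := by
    have h1 : onePointHyperplaneHomeoUnitSphere hv1 OnePoint.infty = v := by
      unfold onePointHyperplaneHomeoUnitSphere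
      rw [OnePoint.equivOfIsEmbeddingOfRangeEq_apply_infty]
    exact h1
  obtain ⟨H, h1, h2⟩ := onePt (Θ ⁻¹' C) (hCc.preimage Θ.continuous) (by
    change Θ OnePoint.infty ∈ C
    rw [hΘ]; exact hv)
  refine ⟨fun k => (Θ.symm.trans (H k)).trans Θ, ?_, ?_⟩
  · intro p
    obtain ⟨q, hq, hlim⟩ := h1 (Θ.symm p)
    exact ⟨Θ q, hq, (Θ.continuous.tendsto q).comp hlim⟩
  · intro q hq
    obtain ⟨p, hlim⟩ := h2 (Θ.symm q) (by change Θ (Θ.symm q) ∈ C; rw [Θ.apply_symm_apply]; exact hq)
    refine ⟨Θ p, ?_⟩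
    have h3 := (Θ.continuous.tendsto _).comp hlim
    rw [Θ.apply_symm_apply] at h3
    refine h3.congr fun k => ?_
    simp

end Pool.Agent.Fiber
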