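import Mathlib

set_option autoImplicit false
open Set Filter Topology

namespace Pool.Agent.Fiber

variable {E : Type} [NormedAddCommGroup E]

/-- one term of the sup-convolution -/
noncomputable def F (K : ℝ) (c : E × ℝ) (x : E) (t : ℝ) : ℝ :=
  min c.2 (K * t - (K-1) * c.2) - K * ‖c.1 - x‖

theorem F_le {K : ℝ} (hK : 1 ≤ K) (c : E × ℝ) (x : E) (t : ℝ) : F K c x t ≤ t - K * ‖c.1 - x‖ := by
  unfold F
  have : min c.2 (K * t - (K-1) * c.2) ≤ t := by
    rcases le_total c.2 t with h | h
    · exact (min_le_left _ _).trans h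
    · refine (min_le_right _ _).trans ?_
      nlinarith
  linarith

theorem F_le' {K : ℝ} (hK : 1 ≤ K) (c : E × ℝ) (x : E) (t : ℝ) : F K c x t ≤ t := by
  have := F_le hK c x t
  have h2 : 0 ≤ K * ‖c.1 - x‖ := by positivity
  linarith

theorem F_mono {K : ℝ} (hK : 1 ≤ K) (c : E × ℝ) (x : E) {s t : ℝ} (h : s ≤ t) :
    F K c x s ≤ F K c x t := by
  unfold F
  have : K * s ≤ K * t := by nlinarith
  have : min c.2 (K * s - (K-1) * c.2) ≤ min c.2 (K * t - (K-1) * c.2) :=
    min_le_min le_rfl (by linarith)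
  linarith

theorem F_lip {K : ℝ} (hK : 1 ≤ K) (c : E × ℝ) (x y : E) (s t : ℝ) :
    F K c x s ≤ F K c y t + K * ‖x - y‖ + K * |s - t| := by
  unfold F
  have h1 : min c.2 (K * s - (K-1) * c.2) ≤ min c.2 (K * t - (K-1) * c.2) + K * |s - t| := by
    have h2 : K * s - K * t ≤ K * |s - t| := by
      have := le_abs_self (s - t); nlinarith
    have h3 : 0 ≤ K * |s - t| := by positivity
    rcases le_total c.2 (K * t - (K-1) * c.2) with h | h
    · rw [min_eq_left h]
      exact (min_le_left _ _).trans (by linarith)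
    · rw [min_eq_right h]
      exact (min_le_right _ _).trans (by linarith)
  have h4 : ‖c.1 - y‖ ≤ ‖c.1 - x‖ + ‖x - y‖ := by
    have := norm_add_le (c.1 - x) (x - y)
    simpa using this
  nlinarith

noncomputable def G (C : Set (E × ℝ)) (K : ℝ) (x : E) (t : ℝ) : ℝ := ⨆ c : C, F K (c : E × ℝ) x t

variable {C : Set (E × ℝ)}

theorem bdd {K : ℝ} (hK : 1 ≤ K) (x : E) (t : ℝ) :
    BddAbove (Set.range fun c : C => F K (c : E × ℝ) x t) :=
  ⟨t, by rintro _ ⟨c, rfl⟩; exact F_le' hK _ _ _⟩

theorem G_mono (hC : C.Nonempty) {K : ℝ} (hK : 1 ≤ K) (x : E) {s t : ℝ} (h : s ≤ t) :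
    G C K x s ≤ G C K x t := by
  have : Nonempty C := hC.to_subtype
  exact ciSup_mono (bdd hK x t) fun c => F_mono hK _ _ h

theorem G_lip (hC : C.Nonempty) {K : ℝ} (hK : 1 ≤ K) (x y : E) (s t : ℝ) :
    G C K x s ≤ G C K y t + K * ‖x - y‖ + K * |s - t| := by
  have : Nonempty C := hC.to_subtype
  apply ciSup_le
  intro c
  have h1 := F_lip hK (c : E × ℝ) x y s t
  have h2 : F K (c : E × ℝ) y t ≤ G C K y t := le_ciSup (bdd hK y t) c
  linarith

noncomputable def hm (C : Set (E × ℝ)) (K : ℝ) (p : E × ℝ) : E × ℝ := (p.1, p.2 / K + G C K p.1 p.2)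

theorem hm_lip (hC : C.Nonempty) {K : ℝ} (hK : 1 ≤ K) :
    LipschitzWith (Real.toNNReal (2 * K + 1)) (hm C K) := by
  apply LipschitzWith.of_dist_le_mul
  rintro ⟨x, s⟩ ⟨y, t⟩
  rw [Real.coe_toNNReal _ (by linarith)]
  set d := dist (x, s) (y, t) with hd
  have h1 : ‖x - y‖ ≤ d := by
    rw [← dist_eq_norm, hd, Prod.dist_eq]; exact le_max_left _ _
  have h2 : |s - t| ≤ d := by
    rw [← Real.dist_eq, hd, Prod.dist_eq]; exact le_max_right _ _
  have hd0 : 0 ≤ d := dist_nonneg
  have hK0 : 0 < K := by linarith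
  have h3 := G_lip hC hK x y s t
  have h4 := G_lip hC hK y x t s
  rw [norm_sub_rev y x, abs_sub_comm t s] at h4
  have h5 : |s / K - t / K| ≤ d := by
    rw [← sub_div, abs_div, abs_of_pos hK0]
    exact (div_le_self (abs_nonneg _) hK).trans h2
  have h6 : K * ‖x - y‖ ≤ K * d := by gcongr
  have h7 : K * |s - t| ≤ K * d := by gcongr
  unfold hm
  rw [Prod.dist_eq]
  apply max_le
  · rw [dist_eq_norm]
    simp only
    nlinarith
  · rw [Real.dist_eq]
    simp only
    have h8 : |G C K x s - G C K y t| ≤ 2 * K * d := by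
      rw [abs_le]; constructor <;> linarith
    have h9 : s / K + G C K x s - (t / K + G C K y t) = (s/K - t/K) + (G C K x s - G C K y t) := by
      ring
    rw [h9]
    refine (abs_add_le _ _).trans ?_
    linarith

theorem hm_anti_aux (hC : C.Nonempty) {K : ℝ} (hK : 1 ≤ K) (x y : E) {s t : ℝ} (hst : t ≤ s) :
    s - t ≤ K * (|(s / K + G C K x s) - (t / K + G C K y t)| + K * ‖x - y‖) := by
  have hK0 : 0 < K := by linarith
  have h1 := G_mono hC hK x hst
  have h2 := G_lip hC hK y x t t
  rw [sub_self, abs_zero, mul_zero, add_zero, norm_sub_rev] at h2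
  have h3 : (s - t) / K ≤ |(s / K + G C K x s) - (t / K + G C K y t)| + K * ‖x - y‖ := by
    have := le_abs_self ((s / K + G C K x s) - (t / K + G C K y t))
    rw [sub_div]
    linarith
  rw [div_le_iff₀ hK0] at h3
  linarith

theorem hm_anti (hC : C.Nonempty) {K : ℝ} (hK : 1 ≤ K) :
    AntilipschitzWith (Real.toNNReal (K * (1 + K) + 1)) (hm C K) := by
  have hK0 : 0 < K := by linarith
  apply AntilipschitzWith.of_le_mul_dist
  rintro ⟨x, s⟩ ⟨y, t⟩
  rw [Real.coe_toNNReal _ (by positivity)]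
  set d := dist (hm C K (x, s)) (hm C K (y, t)) with hd
  have h1 : ‖x - y‖ ≤ d := by
    rw [← dist_eq_norm, hd, Prod.dist_eq]; exact le_max_left _ _
  have h2 : |(s / K + G C K x s) - (t / K + G C K y t)| ≤ d := by
    rw [← Real.dist_eq, hd, Prod.dist_eq]; exact le_max_right _ _
  have hd0 : 0 ≤ d := dist_nonneg
  have h3 : |s - t| ≤ K * (1 + K) * d := by
    have h4 : K * (|(s / K + G C K x s) - (t / K + G C K y t)| + K * ‖x - y‖) ≤ K * (1 + K) * d := by
      have : |(s / K + G C K x s) - (t / K + G C K y t)| + K * ‖x - y‖ ≤ (1 + K) * d := by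
        have : K * ‖x - y‖ ≤ K * d := by gcongr
        linarith
      calc _ ≤ K * ((1 + K) * d) := by gcongr
        _ = _ := by ring
    rcases le_total t s with h | h
    · rw [abs_of_nonneg (by linarith)]
      exact (hm_anti_aux hC hK x y h).trans h4
    · rw [abs_sub_comm, abs_of_nonneg (by linarith)]
      have := hm_anti_aux hC hK y x h
      rw [norm_sub_rev, abs_sub_comm] at this
      exact this.trans h4
  rw [Prod.dist_eq]
  apply max_le
  · simp only
    rw [dist_eq_norm]
    have : 0 ≤ K * (1 + K) * d := by positivity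
    linarith
  · simp only
    rw [Real.dist_eq]
    linarith

theorem hm_surj (hC : C.Nonempty) {K : ℝ} (hK : 1 ≤ K) : Function.Surjective (hm C K) := by
  have hK0 : 0 < K := by linarith
  rintro ⟨x, s⟩
  let f : ℝ → ℝ := fun t => t / K + G C K x t
  have hf : Continuous f := by
    have : f = fun t => (hm C K (x, t)).2 := rfl
    rw [this]
    exact continuous_snd.comp ((hm_lip hC hK).continuous.comp (by fun_prop))
  have h1 : Tendsto f atTop atTop := by
    have h2 : Tendsto (fun t : ℝ => t / K + G C K x 0) atTop atTop :=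
      (tendsto_id.atTop_div_const hK0).atTop_add tendsto_const_nhds
    apply tendsto_atTop_mono' _ _ h2
    filter_upwards [eventually_ge_atTop 0] with t ht
    have := G_mono hC hK x ht
    simp only [f]; linarith
  have h3 : Tendsto f atBot atBot := by
    have h2 : Tendsto (fun t : ℝ => t / K + G C K x 0) atBot atBot :=
      (tendsto_id.atBot_div_const hK0).atBot_add tendsto_const_nhds
    apply tendsto_atBot_mono' _ _ h2
    filter_upwards [eventually_le_atBot 0] with t ht
    have := G_mono hC hK x ht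
    simp only [f]; linarith
  obtain ⟨t, ht⟩ := hf.surjective h1 h3 s
  exact ⟨(x, t), Prod.ext rfl ht⟩

noncomputable def hmH (hC : C.Nonempty) {K : ℝ} (hK : 1 ≤ K) : (E × ℝ) ≃ₜ (E × ℝ) :=
  (Equiv.ofBijective (hm C K) ⟨(hm_anti hC hK).injective, hm_surj hC hK⟩).toHomeomorphOfIsInducing
    ((hm_anti hC hK).isUniformInducing (hm_lip hC hK).uniformContinuous).isInducing

theorem hmH_apply (hC : C.Nonempty) {K : ℝ} (hK : 1 ≤ K) (p : E × ℝ) :
    hmH hC hK p = hm C K p := rfl

/-- eventual upper bound -/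
theorem G_upper (hCc : IsClosed C) (hC : C.Nonempty) (x : E) (t a : ℝ)
    (h : ∀ c, (x, c) ∈ C → a ≤ c → c ≤ t → False) :
    ∀ᶠ k : ℕ in atTop, G C ((k:ℝ)+1) x t ≤ a := by
  have : Nonempty C := hC.to_subtype
  have hA : IsCompact (({x} : Set E) ×ˢ Set.Icc a t) := isCompact_singleton.prod isCompact_Icc
  have hdisj : Disjoint (({x} : Set E) ×ˢ Set.Icc a t) C := by
    rw [Set.disjoint_left]
    rintro ⟨y, c⟩ ⟨h1, h2⟩ h3
    rw [Set.mem_singleton_iff] at h1
    simp only at h1
    subst h1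
    exact h c h3 h2.1 h2.2
  obtain ⟨r, hr, hrd⟩ := hdisj.exists_thickenings hA hCc
  by_cases hat : t < a
  · exact Eventually.of_forall fun k =>
      (ciSup_le fun c => F_le' (by have : (0:ℝ) ≤ k := Nat.cast_nonneg k; linarith) _ _ _).trans hat.le
  push Not at hat
  obtain ⟨k₀, hk₀⟩ := exists_nat_ge ((t - a) / r)
  filter_upwards [eventually_ge_atTop k₀] with k hk
  have hkr : (t - a) ≤ k * r := by
    have h1 : (k₀:ℝ) ≤ k := by exact_mod_cast hk
    have h2 := hk₀.trans h1
    rwa [div_le_iff₀ hr] at h2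
  have hK : (1:ℝ) ≤ (k:ℝ)+1 := by have : (0:ℝ) ≤ k := Nat.cast_nonneg k; linarith
  apply ciSup_le
  rintro ⟨⟨y, c⟩, hc⟩
  simp only
  by_cases h1 : r ≤ ‖y - x‖
  · have h2 := F_le hK (y, c) x t
    simp only at h2
    have h3 : (k:ℝ) * r ≤ ((k:ℝ)+1) * ‖y - x‖ := by
      have : (0:ℝ) ≤ k := Nat.cast_nonneg k
      nlinarith
    linarith
  · push Not at h1
    by_cases h2 : c < a
    · unfold F
      have h3 : 0 ≤ ((k:ℝ)+1) * ‖y - x‖ := by positivity
      have h4 := min_le_left c (((k:ℝ)+1) * t - ((k:ℝ)+1-1) * c)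
      simp only
      linarith
    · push Not at h2
      -- then c ≥ t + r
      have h3 : t + r ≤ c := by
        by_contra h4
        push Not at h4
        have h5 : (y, c) ∈ Metric.thickening r (({x} : Set E) ×ˢ Set.Icc a t) := by
          rw [Metric.mem_thickening_iff]
          refine ⟨(x, min c t), ⟨rfl, ⟨le_min h2 hat, min_le_right _ _⟩⟩, ?_⟩
          rw [Prod.dist_eq]
          apply max_lt
          · simp only; rw [dist_eq_norm]; exact h1
          · simp only
            rw [Real.dist_eq]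
            rcases le_total c t with h6 | h6
            · rw [min_eq_left h6]; simpa using hr
            · rw [min_eq_right h6, abs_of_nonneg (by linarith)]; linarith
        have h6 : (y, c) ∈ Metric.thickening r C := Metric.self_subset_thickening hr C hc
        exact Set.disjoint_left.mp hrd h5 h6
      unfold F
      have h4 := min_le_right c (((k:ℝ)+1) * t - ((k:ℝ)+1-1) * c)
      have h5 : 0 ≤ ((k:ℝ)+1) * ‖y - x‖ := by positivity
      simp only
      have h6 : (k:ℝ) * (t + r) ≤ k * c := by gcongr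
      nlinarith

theorem conv_max (hCc : IsClosed C) (x : E) (t c : ℝ) (hc : (x, c) ∈ C) (hct : c ≤ t)
    (hmax : ∀ c', (x, c') ∈ C → c' ≤ t → c' ≤ c) :
    Tendsto (fun k : ℕ => hm C ((k:ℝ)+1) (x, t)) atTop (𝓝 (x, c)) := by
  have hC : C.Nonempty := ⟨_, hc⟩
  have hG : Tendsto (fun k : ℕ => G C ((k:ℝ)+1) x t) atTop (𝓝 c) := by
    rw [tendsto_order]
    have hlow : ∀ k : ℕ, c ≤ G C ((k:ℝ)+1) x t := by
      intro k
      have hk : (0:ℝ) ≤ k := Nat.cast_nonneg k
      have h1 : F ((k:ℝ)+1) (x, c) x t = c := by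
        unfold F
        simp only [sub_self, norm_zero, mul_zero, sub_zero]
        apply min_eq_left
        nlinarith
      have h2 : F ((k:ℝ)+1) ((⟨(x, c), hc⟩ : C) : E × ℝ) x t ≤ G C ((k:ℝ)+1) x t :=
        le_ciSup (bdd (by linarith) x t) (⟨(x, c), hc⟩ : C)
      simp only at h2
      rw [h1] at h2
      exact h2
    constructor
    · intro a ha
      exact Eventually.of_forall fun k => lt_of_lt_of_le ha (hlow k)
    · intro b hb
      have := G_upper hCc hC x t ((b + c)/2) (by
        intro c' h1 h2 h3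
        have := hmax c' h1 h3
        linarith)
      filter_upwards [this] with k hk
      linarith
  have h0 : Tendsto (fun k : ℕ => t / ((k:ℝ)+1)) atTop (𝓝 0) :=
    tendsto_const_nhds.div_atTop (tendsto_atTop_add_const_right _ _ tendsto_natCast_atTop_atTop)
  have h1 := h0.add hG
  rw [zero_add] at h1
  exact tendsto_const_nhds.prodMk_nhds h1

theorem conv_inf [ProperSpace E] (hCc : IsClosed C) (hC : C.Nonempty) (x : E) (t : ℝ)
    (h : ∀ c, (x, c) ∈ C → c ≤ t → False) :
    Tendsto (fun k : ℕ => ((hm C ((k:ℝ)+1) (x, t) : E × ℝ) : OnePoint (E × ℝ))) atTop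
      (𝓝 OnePoint.infty) := by
  have hG : Tendsto (fun k : ℕ => (hm C ((k:ℝ)+1) (x, t)).2) atTop atBot := by
    rw [tendsto_atBot]
    intro b
    have h0 : Tendsto (fun k : ℕ => t / ((k:ℝ)+1)) atTop (𝓝 0) :=
      tendsto_const_nhds.div_atTop (tendsto_atTop_add_const_right _ _ tendsto_natCast_atTop_atTop)
    filter_upwards [G_upper hCc hC x t (b - 1) (fun c h1 _ h3 => h c h1 h3),
      h0.eventually_le_const (zero_lt_one)] with k h1 h2
    unfold hm
    simp only
    linarith
  refine OnePoint.tendsto_coe_infty.comp ?_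
  rw [Filter.coclosedCompact_eq_cocompact]
  have h2 : Tendsto (fun p : E × ℝ => p.2) (comap Prod.snd atBot) atBot := tendsto_comap
  have h3 : comap (Prod.snd : E × ℝ → ℝ) atBot ≤ cocompact (E × ℝ) := by
    intro s hs
    rw [Filter.mem_cocompact] at hs
    obtain ⟨K, hK, hKs⟩ := hs
    obtain ⟨m, hm⟩ := (hK.image continuous_snd).bddBelow
    refine ⟨Set.Iio m, Iio_mem_atBot m, ?_⟩
    intro p hp
    apply hKs
    intro hpK
    exact absurd (hm ⟨p, hpK, rfl⟩) (not_le.mpr hp)
  exact (tendsto_comap_iff.mpr hG).mono_right h3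

end Pool.Agent.Fiber
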